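import Mathlib

/-!
# Elliptic spaces: the metric

The general part of this file (the metric axioms, the strict triangle inequality, the topology) is
adapted from the library file `R_pool_sql_team_18ca10b6/Results/MP_a3bfba_gt/EllipticFour.lean`,
which treats the real projective 4-space; here `V` is any real inner product space.
-/

set_option autoImplicit false

namespace Pool.Agent.KS6_55.Ell

open Real
open scoped InnerProductSpace

variable {V : Type} [NormedAddCommGroup V] [InnerProductSpace ℝ V]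

/-- the elliptic distance on the projective space of `V`: the angle (in `[0, π / 2]`) between two
lines through the origin of `V` -/
noncomputable def ellDist (A B : Projectivization ℝ V) : ℝ :=
  arccos (|⟪A.rep, B.rep⟫_ℝ| / (‖A.rep‖ * ‖B.rep‖))

lemma ellDist_mk (u w : V) (hu : u ≠ 0) (hw : w ≠ 0) :
    ellDist (Projectivization.mk ℝ u hu) (Projectivization.mk ℝ w hw) =
      arccos (|⟪u, w⟫_ℝ| / (‖u‖ * ‖w‖)) := by
  obtain ⟨a, ha⟩ := Projectivization.exists_smul_eq_mk_rep ℝ u hu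
  obtain ⟨b, hb⟩ := Projectivization.exists_smul_eq_mk_rep ℝ w hw
  unfold ellDist
  rw [← ha, ← hb]
  have ha0 : (a : ℝ) ≠ 0 := a.ne_zero
  have hb0 : (b : ℝ) ≠ 0 := b.ne_zero
  have ha' : |(a : ℝ)| ≠ 0 := abs_ne_zero.2 ha0
  have hb' : |(b : ℝ)| ≠ 0 := abs_ne_zero.2 hb0
  congr 1
  rw [Units.smul_def, Units.smul_def, inner_smul_left, inner_smul_right, norm_smul, norm_smul,
    abs_mul, abs_mul, Real.norm_eq_abs, Real.norm_eq_abs]
  simp only [conj_trivial]
  have hun : ‖u‖ ≠ 0 := norm_ne_zero_iff.2 hu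
  have hwn : ‖w‖ ≠ 0 := norm_ne_zero_iff.2 hw
  field_simp

lemma exists_iso (a b x y : V) (ha : ‖a‖ = 1) (hb : ‖b‖ = 1) (hx : ‖x‖ = 1) (hy : ‖y‖ = 1)
    (h : ⟪x, y⟫_ℝ = ⟪a, b⟫_ℝ) : ∃ U : V ≃ₗᵢ[ℝ] V, U x = a ∧ U y = b := by
  obtain ⟨R, hR⟩ : ∃ R : V ≃ₗᵢ[ℝ] V, R x = a :=
    ⟨(ℝ ∙ (x - a))ᗮ.reflection, Submodule.reflection_sub (by rw [hx, ha])⟩
  have hRy : ‖R y‖ = ‖b‖ := by rw [R.norm_map, hy, hb]
  have hin : ⟪R y - b, a⟫_ℝ = 0 := by
    rw [inner_sub_left]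
    have h1 : ⟪R y, a⟫_ℝ = ⟪y, x⟫_ℝ := by rw [← hR, R.inner_map_map]
    rw [h1, real_inner_comm, h, real_inner_comm]
    ring
  refine ⟨R.trans (ℝ ∙ (R y - b))ᗮ.reflection, ?_, ?_⟩
  · show (ℝ ∙ (R y - b))ᗮ.reflection (R x) = a
    rw [hR]
    exact Submodule.reflection_mem_subspace_eq_self
      (Submodule.mem_orthogonal_singleton_iff_inner_right.2 hin)
  · show (ℝ ∙ (R y - b))ᗮ.reflection (R y) = b
    exact Submodule.reflection_sub hRy


lemma ellDist_symm (A B : Projectivization ℝ V) : ellDist A B = ellDist B A := by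
  unfold ellDist
  rw [real_inner_comm, mul_comm]

lemma ellDist_nonneg (A B : Projectivization ℝ V) : 0 ≤ ellDist A B := arccos_nonneg _

lemma ellDist_le (A B : Projectivization ℝ V) : ellDist A B ≤ π / 2 := by
  unfold ellDist
  rw [arccos_le_pi_div_two]
  positivity

lemma ellDist_le_angle (u w : V) (hu : u ≠ 0) (hw : w ≠ 0) :
    ellDist (Projectivization.mk ℝ u hu) (Projectivization.mk ℝ w hw) ≤
      InnerProductGeometry.angle u w := by
  rw [ellDist_mk]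
  unfold InnerProductGeometry.angle
  exact antitone_arccos (div_le_div_of_nonneg_right (le_abs_self _) (by positivity))

lemma ellDist_eq_angle (u w : V) (hu : u ≠ 0) (hw : w ≠ 0) (h : 0 ≤ ⟪u, w⟫_ℝ) :
    ellDist (Projectivization.mk ℝ u hu) (Projectivization.mk ℝ w hw) =
      InnerProductGeometry.angle u w := by
  rw [ellDist_mk, abs_of_nonneg h]
  rfl

lemma exists_sign (A : Projectivization ℝ V) (v : V) :
    ∃ (u : V) (hu : u ≠ 0), Projectivization.mk ℝ u hu = A ∧ 0 ≤ ⟪u, v⟫_ℝ := by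
  rcases le_total 0 ⟪A.rep, v⟫_ℝ with h | h
  · exact ⟨A.rep, A.rep_nonzero, A.mk_rep, h⟩
  · refine ⟨-A.rep, neg_ne_zero.2 A.rep_nonzero, ?_, by rw [inner_neg_left]; linarith⟩
    refine Eq.trans ?_ A.mk_rep
    rw [Projectivization.mk_eq_mk_iff']
    exact ⟨-1, by simp⟩

lemma ellDist_triangle (A B C : Projectivization ℝ V) :
    ellDist A C ≤ ellDist A B + ellDist B C := by
  obtain ⟨u, hu, huA, hu0⟩ := exists_sign A B.rep
  obtain ⟨w, hw, hwC, hw0⟩ := exists_sign C B.rep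
  have h1 := ellDist_eq_angle u B.rep hu B.rep_nonzero hu0
  have h2 := ellDist_eq_angle B.rep w B.rep_nonzero hw (by rw [real_inner_comm]; exact hw0)
  have h3 := ellDist_le_angle u w hu hw
  have h4 := InnerProductGeometry.angle_le_angle_add_angle u B.rep w
  rw [huA, Projectivization.mk_rep] at h1
  rw [hwC, Projectivization.mk_rep] at h2
  rw [huA, hwC] at h3
  linarith

lemma ellDist_eq_zero (A B : Projectivization ℝ V) : ellDist A B = 0 ↔ A = B := by
  obtain ⟨u, hu, huA, hu0⟩ := exists_sign A B.rep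
  have h1 := ellDist_eq_angle u B.rep hu B.rep_nonzero hu0
  rw [huA, Projectivization.mk_rep] at h1
  rw [h1, InnerProductGeometry.angle_eq_zero_iff]
  constructor
  · rintro ⟨-, r, hr, hB⟩
    rw [← huA, ← B.mk_rep, Projectivization.mk_eq_mk_iff']
    exact ⟨r⁻¹, by rw [hB, smul_smul, inv_mul_cancel₀ hr.ne', one_smul]⟩
  · intro hAB
    refine ⟨hu, ?_⟩
    have h2 : Projectivization.mk ℝ B.rep B.rep_nonzero = Projectivization.mk ℝ u hu := by
      rw [huA, Projectivization.mk_rep, hAB]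
    rw [Projectivization.mk_eq_mk_iff'] at h2
    obtain ⟨a, ha⟩ := h2
    refine ⟨a, ?_, ha.symm⟩
    have h3 : 0 ≤ a * (‖u‖ ^ 2) := by
      rw [← ha, inner_smul_right, real_inner_self_eq_norm_sq] at hu0
      exact hu0
    have h4 : 0 < ‖u‖ ^ 2 := by positivity
    have h5 : a ≠ 0 := by
      rintro rfl
      rw [zero_smul] at ha
      exact B.rep_nonzero ha.symm
    have h6 : 0 ≤ a := by
      by_contra hneg
      push Not at hneg
      nlinarith
    exact lt_of_le_of_ne h6 h5.symm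

/-- every projective line is a circle of length `π` -/
lemma ellDist_line (u v : V) (hu : ‖u‖ = 1) (hv : ‖v‖ = 1) (huv : ⟪u, v⟫_ℝ = 0) (s t : ℝ)
    (hs : cos s • u + sin s • v ≠ 0) (ht : cos t • u + sin t • v ≠ 0) :
    ellDist (Projectivization.mk ℝ _ hs) (Projectivization.mk ℝ _ ht) =
      arccos |cos (s - t)| := by
  have hin : ∀ a b : ℝ, ⟪cos a • u + sin a • v, cos b • u + sin b • v⟫_ℝ = cos (a - b) := by
    intro a b
    have hvu : ⟪v, u⟫_ℝ = 0 := by rw [real_inner_comm]; exact huv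
    simp only [inner_add_left, inner_add_right, real_inner_smul_left, real_inner_smul_right,
      huv, hvu, real_inner_self_eq_norm_sq, hu, hv, cos_sub]
    ring
  have hn : ∀ a : ℝ, ‖cos a • u + sin a • v‖ = 1 := by
    intro a
    have h1 := hin a a
    rw [real_inner_self_eq_norm_sq, sub_self, cos_zero] at h1
    have h2 := norm_nonneg (cos a • u + sin a • v)
    nlinarith
  rw [ellDist_mk, hin, hn, hn]
  norm_num

/-- equality in the angle triangle inequality, with a + b < π, gives dependence -/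
lemma dep_of_angle (u v w : V) (hu : ‖u‖ = 1) (hv : ‖v‖ = 1) (hw : ‖w‖ = 1)
    (h : InnerProductGeometry.angle u w = InnerProductGeometry.angle u v + InnerProductGeometry.angle v w) :
    (⟪u, w⟫_ℝ - ⟪u, v⟫_ℝ * ⟪v, w⟫_ℝ) ^ 2 = (1 - ⟪u, v⟫_ℝ ^ 2) * (1 - ⟪v, w⟫_ℝ ^ 2) := by
  have c1 := InnerProductGeometry.cos_angle u v
  have c2 := InnerProductGeometry.cos_angle v w
  have c3 := InnerProductGeometry.cos_angle u w
  rw [hu, hv, mul_one, div_one] at c1
  rw [hv, hw, mul_one, div_one] at c2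
  rw [hu, hw, mul_one, div_one] at c3
  rw [← c1, ← c2, ← c3, h, cos_add]
  have s1 := sin_sq_add_cos_sq (InnerProductGeometry.angle u v)
  have s2 := sin_sq_add_cos_sq (InnerProductGeometry.angle v w)
  have e1 : 1 - cos (InnerProductGeometry.angle u v) ^ 2 = sin (InnerProductGeometry.angle u v) ^ 2 := by linarith
  have e2 : 1 - cos (InnerProductGeometry.angle v w) ^ 2 = sin (InnerProductGeometry.angle v w) ^ 2 := by linarith
  rw [e1, e2]
  ring

/-- three unit vectors with vanishing Gram determinant are linearly dependent -/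
lemma dep (u v w : V) (hu : ‖u‖ = 1) (hv : ‖v‖ = 1) (hw : ‖w‖ = 1)
    (h : (⟪u, w⟫_ℝ - ⟪u, v⟫_ℝ * ⟪v, w⟫_ℝ) ^ 2 = (1 - ⟪u, v⟫_ℝ ^ 2) * (1 - ⟪v, w⟫_ℝ ^ 2)) :
    ∃ a b c : ℝ, (a ≠ 0 ∨ b ≠ 0 ∨ c ≠ 0) ∧ a • u + b • v + c • w = 0 := by
  have huu : ⟪u, u⟫_ℝ = 1 := by rw [real_inner_self_eq_norm_sq, hu]; norm_num
  have hvv : ⟪v, v⟫_ℝ = 1 := by rw [real_inner_self_eq_norm_sq, hv]; norm_num
  have hww : ⟪w, w⟫_ℝ = 1 := by rw [real_inner_self_eq_norm_sq, hw]; norm_num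
  have hvu : ⟪v, u⟫_ℝ = ⟪u, v⟫_ℝ := real_inner_comm _ _
  have hwu : ⟪w, u⟫_ℝ = ⟪u, w⟫_ℝ := real_inner_comm _ _
  have hwv : ⟪w, v⟫_ℝ = ⟪v, w⟫_ℝ := real_inner_comm _ _
  by_cases h1 : 1 - ⟪u, v⟫_ℝ ^ 2 = 0
  · refine ⟨1, -⟪u, v⟫_ℝ, 0, Or.inl one_ne_zero, ?_⟩
    rw [← norm_eq_zero, ← sq_eq_zero_iff, ← real_inner_self_eq_norm_sq]
    simp only [inner_add_left, inner_add_right, real_inner_smul_left, real_inner_smul_right,
      huu, hvv, hww, hvu, hwu, hwv]
    linear_combination h1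
  · refine ⟨-(⟪u, w⟫_ℝ - ⟪u, v⟫_ℝ * ⟪v, w⟫_ℝ), 
      (⟪u, w⟫_ℝ - ⟪u, v⟫_ℝ * ⟪v, w⟫_ℝ) * ⟪u, v⟫_ℝ - (1 - ⟪u, v⟫_ℝ ^ 2) * ⟪v, w⟫_ℝ,
      1 - ⟪u, v⟫_ℝ ^ 2, Or.inr (Or.inr h1), ?_⟩
    rw [← norm_eq_zero, ← sq_eq_zero_iff, ← real_inner_self_eq_norm_sq]
    simp only [inner_add_left, inner_add_right, real_inner_smul_left, real_inner_smul_right,
      huu, hvv, hww, hvu, hwu, hwv]
    generalize ⟪u, w⟫_ℝ = x at *
    generalize ⟪u, v⟫_ℝ = y at *
    generalize ⟪v, w⟫_ℝ = z at *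
    linear_combination (-(1 - y ^ 2)) * h

lemma exists_sign' (A : Projectivization ℝ V) (v : V) :
    ∃ (s : ℝ) (hs : s • A.rep ≠ 0), s ≠ 0 ∧ Projectivization.mk ℝ (s • A.rep) hs = A ∧
      0 ≤ ⟪s • A.rep, v⟫_ℝ := by
  rcases le_total 0 ⟪A.rep, v⟫_ℝ with h | h
  · refine ⟨1, by rw [one_smul]; exact A.rep_nonzero, one_ne_zero, ?_, by rw [one_smul]; exact h⟩
    refine Eq.trans ?_ A.mk_rep
    rw [Projectivization.mk_eq_mk_iff']
    exact ⟨1, by simp⟩
  · refine ⟨-1, by rw [neg_one_smul]; exact neg_ne_zero.2 A.rep_nonzero, by norm_num, ?_,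
      by rw [neg_one_smul, inner_neg_left]; linarith⟩
    refine Eq.trans ?_ A.mk_rep
    rw [Projectivization.mk_eq_mk_iff']
    exact ⟨-1, by simp⟩

/-- the triangle inequality is strict for non-collinear triples -/
lemma ellDist_strict (A B C : Projectivization ℝ V)
    (hli : LinearIndependent ℝ ![A.rep, B.rep, C.rep]) :
    ellDist A C < ellDist A B + ellDist B C := by
  refine lt_of_le_of_ne (ellDist_triangle A B C) ?_
  intro heq
  obtain ⟨s, hs, hs0, hsA, hsi⟩ := exists_sign' A B.rep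
  obtain ⟨t, ht, ht0, htC, hti⟩ := exists_sign' C B.rep
  have h1 := ellDist_eq_angle _ B.rep hs B.rep_nonzero hsi
  have h2 := ellDist_eq_angle B.rep _ B.rep_nonzero ht (by rw [real_inner_comm]; exact hti)
  have h3 := ellDist_le_angle _ _ hs ht
  have h4 := InnerProductGeometry.angle_le_angle_add_angle (s • A.rep) B.rep (t • C.rep)
  rw [hsA, Projectivization.mk_rep] at h1
  rw [htC, Projectivization.mk_rep] at h2
  rw [hsA, htC] at h3
  have h5 : InnerProductGeometry.angle (s • A.rep) (t • C.rep) =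
      InnerProductGeometry.angle (s • A.rep) B.rep +
        InnerProductGeometry.angle B.rep (t • C.rep) := by linarith
  have n1 : 0 < ‖s • A.rep‖⁻¹ := inv_pos.2 (norm_pos_iff.2 hs)
  have n2 : 0 < ‖B.rep‖⁻¹ := inv_pos.2 (norm_pos_iff.2 B.rep_nonzero)
  have n3 : 0 < ‖t • C.rep‖⁻¹ := inv_pos.2 (norm_pos_iff.2 ht)
  have hnorm : ∀ x : V, x ≠ 0 → ‖‖x‖⁻¹ • x‖ = 1 := by
    intro x hx
    rw [norm_smul, norm_inv, norm_norm, inv_mul_cancel₀ (norm_ne_zero_iff.2 hx)]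
  have h6 := dep_of_angle (‖s • A.rep‖⁻¹ • (s • A.rep)) (‖B.rep‖⁻¹ • B.rep)
    (‖t • C.rep‖⁻¹ • (t • C.rep)) (hnorm _ hs) (hnorm _ B.rep_nonzero) (hnorm _ ht) (by
      rw [InnerProductGeometry.angle_smul_left_of_pos _ _ n1,
        InnerProductGeometry.angle_smul_right_of_pos _ _ n3,
        InnerProductGeometry.angle_smul_left_of_pos _ _ n1,
        InnerProductGeometry.angle_smul_right_of_pos _ _ n2,
        InnerProductGeometry.angle_smul_left_of_pos _ _ n2,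
        InnerProductGeometry.angle_smul_right_of_pos _ _ n3]
      exact h5)
  obtain ⟨a, b, c, habc, hsum⟩ := dep _ _ _ (hnorm _ hs) (hnorm _ B.rep_nonzero) (hnorm _ ht) h6
  have h7 := Fintype.linearIndependent_iff.1 hli
    ![a * ‖s • A.rep‖⁻¹ * s, b * ‖B.rep‖⁻¹, c * ‖t • C.rep‖⁻¹ * t] (by
      rw [Fin.sum_univ_three]
      simp only [Matrix.cons_val_zero, Matrix.cons_val_one, Matrix.cons_val]
      rw [← hsum]
      simp only [smul_smul, mul_assoc])
  have g0 := h7 0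
  have g1 := h7 1
  have g2 := h7 2
  simp only [Matrix.cons_val_zero, Matrix.cons_val_one, Matrix.cons_val] at g0 g1 g2
  rcases habc with h | h | h
  · exact (mul_ne_zero (mul_ne_zero h n1.ne') hs0) g0
  · exact (mul_ne_zero h n2.ne') g1
  · exact (mul_ne_zero (mul_ne_zero h n3.ne') ht0) g2

/-- the elliptic metric induces the quotient topology of `V ∖ {0}` -/
lemma ellDist_topology (S : Set (Projectivization ℝ V)) :
    (∀ A ∈ S, ∃ ε : ℝ, 0 < ε ∧ ∀ B, ellDist A B < ε → B ∈ S) ↔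
      IsOpen {v : {v : V // v ≠ 0} | Projectivization.mk ℝ v.1 v.2 ∈ S} := by
  constructor
  · intro h
    rw [isOpen_iff_mem_nhds]
    intro v0 hv0
    obtain ⟨ε, hε, hS⟩ := h _ hv0
    have hcont : Continuous fun v : {v : V // v ≠ 0} =>
        arccos (|⟪v0.1, v.1⟫_ℝ| / (‖v0.1‖ * ‖v.1‖)) := by
      refine continuous_arccos.comp (Continuous.div ?_ ?_ ?_)
      · exact (continuous_const.inner continuous_subtype_val).abs
      · exact continuous_const.mul continuous_subtype_val.norm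
      · intro v
        exact mul_ne_zero (norm_ne_zero_iff.2 v0.2) (norm_ne_zero_iff.2 v.2)
    have hopen : IsOpen {v : {v : V // v ≠ 0} |
        arccos (|⟪v0.1, v.1⟫_ℝ| / (‖v0.1‖ * ‖v.1‖)) < ε} := isOpen_lt hcont continuous_const
    refine Filter.mem_of_superset (hopen.mem_nhds ?_) ?_
    · have h0 := (ellDist_eq_zero (Projectivization.mk ℝ v0.1 v0.2)
        (Projectivization.mk ℝ v0.1 v0.2)).2 rfl
      rw [ellDist_mk] at h0
      simp only [Set.mem_setOf_eq]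
      rw [h0]
      exact hε
    · intro v hv
      simp only [Set.mem_setOf_eq] at hv ⊢
      apply hS
      rw [ellDist_mk]
      exact hv
  · intro h A hA
    have hrn : ‖A.rep‖ ≠ 0 := norm_ne_zero_iff.2 A.rep_nonzero
    have hn1 : ‖‖A.rep‖⁻¹ • A.rep‖ = 1 := by
      rw [norm_smul, norm_inv, norm_norm, inv_mul_cancel₀ hrn]
    have ha0 : ‖A.rep‖⁻¹ • A.rep ≠ 0 := by
      rw [← norm_ne_zero_iff, hn1]; exact one_ne_zero
    have hAa : Projectivization.mk ℝ (‖A.rep‖⁻¹ • A.rep) ha0 = A := by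
      refine Eq.trans ?_ A.mk_rep
      rw [Projectivization.mk_eq_mk_iff']
      exact ⟨‖A.rep‖⁻¹, rfl⟩
    have hmem : (⟨‖A.rep‖⁻¹ • A.rep, ha0⟩ : {v : V // v ≠ 0}) ∈
        {v : {v : V // v ≠ 0} | Projectivization.mk ℝ v.1 v.2 ∈ S} := by
      simp only [Set.mem_setOf_eq]
      rw [hAa]
      exact hA
    obtain ⟨ε, hε, hball⟩ := Metric.isOpen_iff.1 h _ hmem
    refine ⟨ε, hε, fun B hB => ?_⟩
    obtain ⟨u, hu, huB, hu0⟩ := exists_sign B (‖A.rep‖⁻¹ • A.rep)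
    have hun : ‖u‖ ≠ 0 := norm_ne_zero_iff.2 hu
    have hb1 : ‖‖u‖⁻¹ • u‖ = 1 := by
      rw [norm_smul, norm_inv, norm_norm, inv_mul_cancel₀ hun]
    have hb0 : ‖u‖⁻¹ • u ≠ 0 := by
      rw [← norm_ne_zero_iff, hb1]; exact one_ne_zero
    have hBb : Projectivization.mk ℝ (‖u‖⁻¹ • u) hb0 = B := by
      refine Eq.trans ?_ huB
      rw [Projectivization.mk_eq_mk_iff']
      exact ⟨‖u‖⁻¹, rfl⟩
    have hpos : 0 ≤ ⟪‖A.rep‖⁻¹ • A.rep, ‖u‖⁻¹ • u⟫_ℝ := by
      rw [real_inner_comm, real_inner_smul_left]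
      exact mul_nonneg (inv_nonneg.2 (norm_nonneg _)) hu0
    have hd := ellDist_eq_angle _ _ ha0 hb0 hpos
    rw [hAa, hBb] at hd
    have hc := InnerProductGeometry.cos_angle (‖A.rep‖⁻¹ • A.rep) (‖u‖⁻¹ • u)
    rw [hn1, hb1, mul_one, div_one, ← hd] at hc
    have hq := Real.one_sub_sq_div_two_le_cos (x := ellDist A B)
    have hsq := norm_sub_sq_real (‖u‖⁻¹ • u) (‖A.rep‖⁻¹ • A.rep)
    rw [hn1, hb1, real_inner_comm, ← hc] at hsq
    have hle : ‖‖u‖⁻¹ • u - ‖A.rep‖⁻¹ • A.rep‖ ≤ ellDist A B := by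
      refine abs_le_of_sq_le_sq' ?_ (ellDist_nonneg A B) |>.2
      linarith
    have hin : (⟨‖u‖⁻¹ • u, hb0⟩ : {v : V // v ≠ 0}) ∈
        Metric.ball (⟨‖A.rep‖⁻¹ • A.rep, ha0⟩ : {v : V // v ≠ 0}) ε := by
      rw [Metric.mem_ball, Subtype.dist_eq, dist_eq_norm]
      exact lt_of_le_of_lt hle hB
    have := hball hin
    simp only [Set.mem_setOf_eq] at this
    rw [hBb] at this
    exact this


end Pool.Agent.KS6_55.Ell
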