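import Pool.Agent.KS6_55.Ell.NonExist

/-!
# Projective-metric spaces of elliptic type
-/

set_option autoImplicit false

namespace Pool.Agent.KS6_55.Ell

open Real
open scoped InnerProductSpace

/-- `d` is a projective metric of elliptic type on the projective space of `V`, and all
projective lines have the length `2 δ`:
it is a metric which induces the usual topology (a set is open if and only if the set of the
nonzero vectors spanning its members is open); every projective line (the set of the points that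
lie in a subspace of dimension two) with the restriction of `d` is isometric to the circle
`ℝ / 2δℤ` with its arc length metric; and the triangle inequality is strict for three points which
are not collinear. -/
structure IsEllipticType {V : Type} [NormedAddCommGroup V] [InnerProductSpace ℝ V]
    (d : Projectivization ℝ V → Projectivization ℝ V → ℝ) (δ : ℝ) : Prop where
  pos : 0 < δ
  eq_zero : ∀ A B, d A B = 0 ↔ A = B
  symm : ∀ A B, d A B = d B A
  triangle : ∀ A B C, d A C ≤ d A B + d B C
  topology : ∀ S : Set (Projectivization ℝ V),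
    (∀ A ∈ S, ∃ ε : ℝ, 0 < ε ∧ ∀ B, d A B < ε → B ∈ S) ↔
      IsOpen {v : {v : V // v ≠ 0} | Projectivization.mk ℝ v.1 v.2 ∈ S}
  line : ∀ W : Submodule ℝ V, Module.finrank ℝ W = 2 →
    ∃ f : AddCircle (2 * δ) → Projectivization ℝ V,
      (∀ s t, d (f s) (f t) = dist s t) ∧ Set.range f = {A | A.submodule ≤ W}
  strict : ∀ A B C : Projectivization ℝ V, LinearIndependent ℝ ![A.rep, B.rep, C.rep] →
    d A C < d A B + d B C

/-- any two distinct points are adjacent vertices of a regular `n`-gon, for all `n ≥ 3` -/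
def RegularPolygonProperty {X : Type} (d : X → X → ℝ) : Prop :=
  ∀ n : ℕ, 3 ≤ n → ∀ A B : X, A ≠ B → AdjacentInNgon d n A B

/-- the hyperbolic distance of constant curvature `-k`, in the coordinates of the hyperboloid
model: `x` stands for the point `(√(1 + ‖x‖²), x)` of the hyperboloid -/
noncomputable def hypDist {m : ℕ} (k : ℝ) (x y : EuclideanSpace ℝ (Fin m)) : ℝ :=
  Real.arcosh (√(1 + ‖x‖ ^ 2) * √(1 + ‖y‖ ^ 2) - ⟪x, y⟫_ℝ) / √k

/-- `X` with the distance `d` is isometric to a Euclidean space -/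
def IsEuclidean {X : Type} (d : X → X → ℝ) : Prop :=
  ∃ (m : ℕ) (f : X ≃ EuclideanSpace ℝ (Fin m)), ∀ x y, d x y = dist (f x) (f y)

/-- `X` with the distance `d` is isometric to a hyperbolic space of constant curvature `-k < 0` -/
def IsHyperbolic {X : Type} (d : X → X → ℝ) : Prop :=
  ∃ (m : ℕ) (k : ℝ) (f : X ≃ EuclideanSpace ℝ (Fin m)), 0 < k ∧
    ∀ x y, d x y = hypDist k (f x) (f y)

section circle

lemma norm_coe_pi (x : ℝ) : ‖(x : AddCircle (2 * (π / 2)))‖ = arccos |cos x| := by
  have hp : (2 * (π / 2)) = π := by ring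
  have h1 : ‖(x : AddCircle (2 * (π / 2)))‖ = |x - round (π⁻¹ * x) * π| := by
    rw [AddCircle.norm_eq, hp]
  rw [h1]
  obtain ⟨k, hk⟩ : ∃ k : ℤ, k = round (π⁻¹ * x) := ⟨_, rfl⟩
  obtain ⟨y, hy⟩ : ∃ y, y = x - k * π := ⟨_, rfl⟩
  rw [← hk, ← hy]
  have hy2 : |y| ≤ π / 2 := by
    have h2 := abs_sub_round (π⁻¹ * x)
    rw [← hk] at h2
    have e : y = π * (π⁻¹ * x - k) := by
      rw [hy]; field_simp
    rw [e, abs_mul, abs_of_pos pi_pos]
    have := mul_le_mul_of_nonneg_left h2 pi_pos.le
    linarith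
  have e2 : |cos x| = cos |y| := by
    have h3 : 0 ≤ cos y := cos_nonneg_of_mem_Icc ⟨by linarith [(abs_le.1 hy2).1], (abs_le.1 hy2).2⟩
    have h5 : cos y = (-1) ^ k * cos x := by rw [hy, cos_sub_int_mul_pi]
    have h4 : |cos x| = |(-1) ^ k * cos x| := by
      rw [abs_mul, abs_zpow, abs_neg, abs_one, one_zpow, one_mul]
    rw [cos_abs, h4, ← h5, abs_of_nonneg h3]
  rw [e2, arccos_cos (abs_nonneg _) (by linarith [pi_pos])]

/-- every point of a circle of length `2 δ` has a coordinate in `[-δ, δ]` -/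
lemma exists_rep {δ : ℝ} (hδ : 0 < δ) (x : AddCircle (2 * δ)) :
    ∃ r : ℝ, (r : AddCircle (2 * δ)) = x ∧ |r| ≤ δ := by
  have hp : (2 * δ) ≠ 0 := by positivity
  have habs : |2 * δ| / 2 = δ := by rw [abs_of_pos (by positivity)]; ring
  obtain ⟨r, rfl⟩ := QuotientAddGroup.mk_surjective x
  refine ⟨r - round ((2 * δ)⁻¹ * r) * (2 * δ), ?_, ?_⟩
  · rw [AddCircle.coe_sub]
    have : ((round ((2 * δ)⁻¹ * r) * (2 * δ) : ℝ) : AddCircle (2 * δ)) = 0 := by
      rw [AddCircle.coe_eq_zero_iff]
      exact ⟨round ((2 * δ)⁻¹ * r), by simp⟩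
    rw [this, sub_zero]
  · have h := AddCircle.norm_le_half_period (2 * δ) (x := (r : AddCircle (2 * δ))) hp
    rw [AddCircle.norm_eq, habs] at h
    exact h

lemma norm_coe {δ : ℝ} (hδ : 0 < δ) (r : ℝ) (hr : |r| ≤ δ) : ‖(r : AddCircle (2 * δ))‖ = |r| := by
  have hp : (2 * δ) ≠ 0 := by positivity
  have habs : |2 * δ| / 2 = δ := by rw [abs_of_pos (by positivity)]; ring
  rw [AddCircle.norm_coe_eq_abs_iff (2 * δ) hp, habs]
  exact hr

/-- on a circle, the distances of a point to two antipodal points add up to half the length -/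
lemma antipodal_add {δ : ℝ} (hδ : 0 < δ) (s t y : AddCircle (2 * δ)) (h : dist s t = δ) :
    dist s y + dist y t = δ := by
  obtain ⟨q, hq, hq1⟩ := exists_rep hδ (t - s)
  obtain ⟨r, hr, hr1⟩ := exists_rep hδ (y - s)
  have hst : |q| = δ := by
    rw [← norm_coe hδ q hq1, hq, ← dist_eq_norm, dist_comm, h]
  have hsy : dist s y = |r| := by
    rw [← norm_coe hδ r hr1, hr, ← dist_eq_norm, dist_comm]
  have hper : ((-δ : ℝ) : AddCircle (2 * δ)) = (δ : ℝ) := by
    rw [← AddCircle.coe_add_period (2 * δ) (-δ)]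
    congr 1
    ring
  have hts : t - s = ((δ : ℝ) : AddCircle (2 * δ)) := by
    rw [← hq]
    rcases abs_eq hδ.le |>.1 hst with h1 | h1
    · rw [h1]
    · rw [h1, hper]
  have hty : t - y = ((δ - r : ℝ) : AddCircle (2 * δ)) := by
    rw [AddCircle.coe_sub, ← hts, hr]
    abel
  have hr2 := abs_le.1 hr1
  have hyt : dist y t = δ - |r| := by
    rw [dist_comm, dist_eq_norm, hty]
    rcases le_or_gt 0 r with h0 | h0
    · rw [norm_coe hδ _ (by rw [abs_of_nonneg (by linarith)]; linarith), abs_of_nonneg h0,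
        abs_of_nonneg (by linarith)]
    · have e : ((δ - r : ℝ) : AddCircle (2 * δ)) = ((-δ - r : ℝ) : AddCircle (2 * δ)) := by
        rw [AddCircle.coe_sub, AddCircle.coe_sub, hper]
      rw [e, norm_coe hδ _ (by rw [abs_of_nonpos (by linarith)]; linarith), abs_of_neg h0,
        abs_of_nonpos (by linarith)]
      ring
  rw [hsy, hyt]
  ring

lemma dist_le_half {δ : ℝ} (hδ : 0 < δ) (s t : AddCircle (2 * δ)) : dist s t ≤ δ := by
  rw [dist_eq_norm]
  have h := AddCircle.norm_le_half_period (2 * δ) (x := s - t) (by positivity)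
  rwa [abs_of_pos (by positivity), mul_div_cancel_left₀ _ (by norm_num : (2 : ℝ) ≠ 0)] at h

/-- every point of the circle has an antipodal point -/
lemma exists_antipodal {δ : ℝ} (hδ : 0 < δ) (s : AddCircle (2 * δ)) :
    ∃ t : AddCircle (2 * δ), dist s t = δ := by
  refine ⟨s + (δ : ℝ), ?_⟩
  rw [dist_comm, dist_eq_norm, add_sub_cancel_left, norm_coe hδ _ (by rw [abs_of_pos hδ]),
    abs_of_pos hδ]

end circle

section general

variable {V : Type} [NormedAddCommGroup V] [InnerProductSpace ℝ V]
  {d : Projectivization ℝ V → Projectivization ℝ V → ℝ} {δ : ℝ}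

lemma mem_of_submodule_le {W : Submodule ℝ V} {A : Projectivization ℝ V} :
    A.submodule ≤ W ↔ A.rep ∈ W := by
  rw [Projectivization.submodule_eq, Submodule.span_singleton_le_iff_mem]

/-- two distinct points span a two-dimensional subspace -/
lemma li_pair {A B : Projectivization ℝ V} (h : A ≠ B) :
    LinearIndependent ℝ ![A.rep, B.rep] := by
  rw [LinearIndependent.pair_iff' A.rep_nonzero]
  intro a ha
  apply h
  rw [← A.mk_rep, ← B.mk_rep, Projectivization.mk_eq_mk_iff']
  have ha0 : a ≠ 0 := by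
    rintro rfl
    rw [zero_smul] at ha
    exact B.rep_nonzero ha.symm
  exact ⟨a⁻¹, by rw [← ha, smul_smul, inv_mul_cancel₀ ha0, one_smul]⟩

lemma finrank_span_pair {A B : Projectivization ℝ V} (h : A ≠ B) :
    Module.finrank ℝ (Submodule.span ℝ {A.rep, B.rep}) = 2 := by
  have h1 := finrank_span_eq_card (li_pair h)
  rw [Fintype.card_fin] at h1
  rwa [Matrix.range_cons, Matrix.range_cons, Matrix.range_empty, Set.union_empty,
    Set.singleton_union] at h1

/-- on a projective line, the distances of a point to two points at the distance `δ` add up to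
`δ` -/
lemma IsEllipticType.add_of_antipodal (hd : IsEllipticType d δ) (W : Submodule ℝ V)
    (hW : Module.finrank ℝ W = 2) {A B Y : Projectivization ℝ V} (hA : A.rep ∈ W)
    (hB : B.rep ∈ W) (hY : Y.rep ∈ W) (h : d A B = δ) : d A Y + d Y B = δ := by
  obtain ⟨f, hf, hr⟩ := hd.line W hW
  obtain ⟨s, rfl⟩ : A ∈ Set.range f := by rw [hr]; exact mem_of_submodule_le.2 hA
  obtain ⟨t, rfl⟩ : B ∈ Set.range f := by rw [hr]; exact mem_of_submodule_le.2 hB
  obtain ⟨y, rfl⟩ : Y ∈ Set.range f := by rw [hr]; exact mem_of_submodule_le.2 hY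
  rw [hf] at h
  rw [hf, hf]
  exact antipodal_add hd.pos s t y h

lemma IsEllipticType.nonneg (hd : IsEllipticType d δ) (A B : Projectivization ℝ V) :
    0 ≤ d A B := by
  have h1 := hd.triangle A B A
  rw [hd.symm B A, (hd.eq_zero A A).2 rfl] at h1
  linarith

lemma IsEllipticType.le (hd : IsEllipticType d δ) (A B : Projectivization ℝ V) :
    d A B ≤ δ := by
  by_cases h : A = B
  · rw [(hd.eq_zero A B).2 h]; exact hd.pos.le
  · obtain ⟨f, hf, hr⟩ := hd.line _ (finrank_span_pair h)
    obtain ⟨s, hs⟩ : A ∈ Set.range f := by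
      rw [hr]; exact mem_of_submodule_le.2 (Submodule.subset_span (by simp))
    obtain ⟨t, ht⟩ : B ∈ Set.range f := by
      rw [hr]; exact mem_of_submodule_le.2 (Submodule.subset_span (by simp))
    rw [← hs, ← ht, hf]
    exact dist_le_half hd.pos s t

/-- **A plane of elliptic type has no quadrangle all of whose sides are as long as possible.** -/
lemma IsEllipticType.no_quadrangle (hd : IsEllipticType d δ) [FiniteDimensional ℝ V]
    (h3 : Module.finrank ℝ V = 3) (A B C D : Projectivization ℝ V) (hAC : A ≠ C) (hBD : B ≠ D)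
    (h1 : d A B = δ) (h2 : d B C = δ) (h4 : d C D = δ) (h5 : d D A = δ) : False := by
  have hδ := hd.pos
  have hne : ∀ {X Y : Projectivization ℝ V}, d X Y = δ → X ≠ Y := by
    intro X Y h hXY
    rw [(hd.eq_zero X Y).2 hXY] at h
    exact hδ.ne h
  have hAB := hne h1
  have hCD := hne h4
  -- the lines `AB` and `CD` meet
  obtain ⟨W, hWd⟩ : ∃ W, W = Submodule.span ℝ {A.rep, B.rep} := ⟨_, rfl⟩
  obtain ⟨W', hWd'⟩ : ∃ W, W = Submodule.span ℝ {C.rep, D.rep} := ⟨_, rfl⟩
  have hW : Module.finrank ℝ W = 2 := by rw [hWd]; exact finrank_span_pair hAB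
  have hW' : Module.finrank ℝ W' = 2 := by rw [hWd']; exact finrank_span_pair hCD
  have hA : A.rep ∈ W := by rw [hWd]; exact Submodule.subset_span (by simp)
  have hB : B.rep ∈ W := by rw [hWd]; exact Submodule.subset_span (by simp)
  have hC : C.rep ∈ W' := by rw [hWd']; exact Submodule.subset_span (by simp)
  have hD : D.rep ∈ W' := by rw [hWd']; exact Submodule.subset_span (by simp)
  have hinf : W ⊓ W' ≠ ⊥ := by
    intro hbot
    have h := Submodule.finrank_sup_add_finrank_inf_eq W W'
    rw [hbot, finrank_bot, hW, hW'] at h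
    have := Submodule.finrank_le (W ⊔ W')
    omega
  obtain ⟨y, hy, hy0⟩ := Submodule.exists_mem_ne_zero_of_ne_bot hinf
  obtain ⟨Y, hYd⟩ : ∃ Y, Y = Projectivization.mk ℝ y hy0 := ⟨_, rfl⟩
  have hYrep : ∀ U : Submodule ℝ V, y ∈ U → Y.rep ∈ U := by
    intro U hU
    rw [← mem_of_submodule_le, hYd, Projectivization.submodule_mk,
      Submodule.span_singleton_le_iff_mem]
    exact hU
  have hYW := hYrep W hy.1
  have hYW' := hYrep W' hy.2
  have a1 := hd.add_of_antipodal W hW hA hB hYW h1
  have a2 := hd.add_of_antipodal W' hW' hC hD hYW' h4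
  -- `B`, `Y`, `C` are not collinear
  have hBW' : B.rep ∉ W' := by
    intro hmem
    have := hd.add_of_antipodal W' hW' hC hD hmem h4
    rw [hd.symm C B, h2] at this
    exact hBD ((hd.eq_zero B D).1 (by linarith))
  have hCW : C.rep ∉ W := by
    intro hmem
    have := hd.add_of_antipodal W hW hA hB hmem h1
    rw [hd.symm C B, h2] at this
    exact hAC ((hd.eq_zero A C).1 (by linarith))
  have hBY : B ≠ Y := by rintro rfl; exact hBW' hYW'
  have hli : LinearIndependent ℝ ![B.rep, Y.rep, C.rep] := by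
    rw [Fintype.linearIndependent_iff]
    intro g hg
    rw [Fin.sum_univ_three] at hg
    simp only [Matrix.cons_val_zero, Matrix.cons_val_one, Matrix.cons_val] at hg
    have g2 : g 2 = 0 := by
      by_contra h0
      apply hCW
      have e : C.rep = (g 2)⁻¹ • (-(g 0 • B.rep + g 1 • Y.rep)) := by
        have e1 : g 2 • C.rep = -(g 0 • B.rep + g 1 • Y.rep) := eq_neg_of_add_eq_zero_right hg
        rw [← e1, smul_smul, inv_mul_cancel₀ h0, one_smul]
      rw [e]
      exact W.smul_mem _ (W.neg_mem (W.add_mem (W.smul_mem _ hB) (W.smul_mem _ hYW)))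
    rw [g2, zero_smul, add_zero] at hg
    have g0 : g 0 = 0 := by
      by_contra h0
      apply hBW'
      have e : B.rep = (g 0)⁻¹ • (-(g 1 • Y.rep)) := by
        have e1 : g 0 • B.rep = -(g 1 • Y.rep) := eq_neg_of_add_eq_zero_left hg
        rw [← e1, smul_smul, inv_mul_cancel₀ h0, one_smul]
      rw [e]
      exact W'.smul_mem _ (W'.neg_mem (W'.smul_mem _ hYW'))
    rw [g0, zero_smul, zero_add] at hg
    have g1 : g 1 = 0 := (smul_eq_zero.1 hg).resolve_right Y.rep_nonzero
    intro i
    fin_cases i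
    · exact g0
    · exact g1
    · exact g2
  have s1 := hd.strict B Y C hli
  have s2 := hd.triangle D Y A
  rw [hd.symm A Y] at a1
  rw [hd.symm C Y, hd.symm Y D] at a2
  rw [hd.symm B Y] at s1
  linarith [hd.symm Y B]

end general

end Pool.Agent.KS6_55.Ell
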