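import Pool.Agent.KS6_55.Ell.Poly

/-!
# Elliptic spaces: existence of regular polygons
-/

set_option autoImplicit false

namespace Pool.Agent.KS6_55.Ell

open Real
open scoped InnerProductSpace

variable {V : Type} [NormedAddCommGroup V] [InnerProductSpace ℝ V]

/-- polygons on circles: a rotation by the angle `2 π j / n` with `j` prime to `n` -/
lemma adjacent3 (e : Fin 3 → V) (he : Orthonormal ℝ e) (n j : ℕ) (hn : n ≠ 0)
    (hj : Nat.Coprime n j) (A B : Projectivization ℝ V) (a b : V) (ha : ‖a‖ = 1)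
    (hb : ‖b‖ = 1) (haA : ∃ h : a ≠ 0, Projectivization.mk ℝ a h = A)
    (hbB : ∃ h : b ≠ 0, Projectivization.mk ℝ b h = B) (h1 : ⟪a, b⟫_ℝ < 1)
    (hC : cos (2 * π * j / n) < ⟪a, b⟫_ℝ) : AdjacentInNgon ellDist n A B := by
  obtain ⟨C, hCd⟩ : ∃ C, C = cos (2 * π * j / n) := ⟨_, rfl⟩
  obtain ⟨c, hcd⟩ : ∃ c, c = ⟪a, b⟫_ℝ := ⟨_, rfl⟩
  rw [← hCd, ← hcd] at hC
  rw [← hcd] at h1
  have hn' : (n : ℝ) ≠ 0 := by exact_mod_cast hn
  have hC1 : 0 < 1 - C := by linarith
  obtain ⟨r, hr⟩ : ∃ r, r = (c - C) / (1 - C) := ⟨_, rfl⟩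
  have hr0 : 0 < r := by rw [hr]; exact div_pos (by linarith) hC1
  have hr1 : r < 1 := by rw [hr, div_lt_one hC1]; linarith
  have hre : r * (1 - C) = c - C := by rw [hr]; field_simp
  refine adjacent_of_model n hn (w3 e r (2 * π * j / n))
    (fun t => r + (1 - r) * cos ((t : ℝ) * (2 * π * j / n)))
    (inner_w3 e he r _ hr0.le hr1.le) ?_ ?_ ?_ A B a b ha hb haA hbB ?_
  · simp
  · intro k
    refine ⟨1, ?_⟩
    rw [one_smul]
    unfold w3
    have e1 : ((k + n : ℤ) : ℝ) * (2 * π * j / n) = k * (2 * π * j / n) + j * (2 * π) := by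
      push_cast
      field_simp
    rw [e1, cos_add_nat_mul_two_pi, sin_add_nat_mul_two_pi]
  · intro t ht
    have hb1 := neg_one_le_cos ((t : ℝ) * (2 * π * j / n))
    have hb2 := cos_le_one ((t : ℝ) * (2 * π * j / n))
    have hcos : cos ((t : ℝ) * (2 * π * j / n)) = 1 := by
      rcases abs_eq (zero_le_one) |>.1 ht with h | h
      · have : (1 - r) * (1 - cos ((t : ℝ) * (2 * π * j / n))) = 0 := by linarith
        rcases mul_eq_zero.1 this with h3 | h3
        · linarith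
        · linarith
      · exfalso
        nlinarith
    obtain ⟨m, hm⟩ := (cos_eq_one_iff _).1 hcos
    have h5 : (t : ℝ) * j = n * m := by
      field_simp at hm
      have := pi_pos
      nlinarith
    have h6 : t * (j : ℤ) = n * m := by exact_mod_cast h5
    have h7 : (n : ℤ) ∣ t * j := ⟨m, h6⟩
    exact (Int.isCoprime_iff_gcd_eq_one.2 (by simpa using hj)).dvd_of_dvd_mul_right h7
  · show ⟪a, b⟫_ℝ = r + (1 - r) * cos (((1 : ℤ) : ℝ) * (2 * π * j / n))
    rw [← hcd, Int.cast_one, one_mul, ← hCd]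
    linarith

/-- polygons of even order from double rotations of a 4-dimensional space -/
lemma adjacent4 (e : Fin 4 → V) (he : Orthonormal ℝ e) (n : ℕ) (hn : 3 ≤ n) (hev : Even n)
    (A B : Projectivization ℝ V) (a b : V) (ha : ‖a‖ = 1)
    (hb : ‖b‖ = 1) (haA : ∃ h : a ≠ 0, Projectivization.mk ℝ a h = A)
    (hbB : ∃ h : b ≠ 0, Projectivization.mk ℝ b h = B) (h0 : 0 ≤ ⟪a, b⟫_ℝ)
    (h1 : ⟪a, b⟫_ℝ ≤ cos (π / n)) : AdjacentInNgon ellDist n A B := by
  obtain ⟨c, hcd⟩ : ∃ c, c = ⟪a, b⟫_ℝ := ⟨_, rfl⟩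
  rw [← hcd] at h0 h1
  have hn3 : (3 : ℝ) ≤ n := by exact_mod_cast hn
  have hn0 : (0 : ℝ) < n := by linarith
  have hn' : (n : ℝ) ≠ 0 := hn0.ne'
  have hC : 0 < cos (π / n) := by
    apply cos_pos_of_mem_Ioo
    constructor
    · have : 0 < π / n := by positivity
      linarith [pi_pos]
    · exact div_lt_div_of_pos_left pi_pos (by norm_num) (by linarith)
  obtain ⟨C, hCd⟩ : ∃ C, C = cos (π / n) := ⟨_, rfl⟩
  rw [← hCd] at h1 hC
  obtain ⟨r, hr⟩ : ∃ r, r = (1 + c / C) / 2 := ⟨_, rfl⟩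
  have hcC : 0 ≤ c / C := div_nonneg h0 hC.le
  have hcC1 : c / C ≤ 1 := (div_le_one hC).2 h1
  have hr0 : 1 / 2 ≤ r := by rw [hr]; linarith
  have hr1 : r ≤ 1 := by rw [hr]; linarith
  have hre : (2 * r - 1) * C = c := by rw [hr]; field_simp; ring
  have hβ : cos (π * (n - 1) / n) = - C := by
    rw [hCd, ← cos_pi_sub]
    congr 1
    field_simp
  obtain ⟨m, hm⟩ := hev
  have hnm : (n : ℝ) = 2 * m := by rw [hm]; push_cast; ring
  refine adjacent_of_model n (by omega) (w4 e r (π / n) (π * (n - 1) / n))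
    (fun t => r * cos ((t : ℝ) * (π / n)) + (1 - r) * cos ((t : ℝ) * (π * (n - 1) / n)))
    (inner_w4 e he r _ _ (by linarith) hr1) ?_ ?_ ?_ A B a b ha hb haA hbB ?_
  · simp
  · intro k
    refine ⟨-1, ?_⟩
    rw [neg_one_smul]
    unfold w4
    have e1 : ((k + n : ℤ) : ℝ) * (π / n) = k * (π / n) + π := by
      push_cast
      field_simp
    have e2 : ((k + n : ℤ) : ℝ) * (π * (n - 1) / n) = (k * (π * (n - 1) / n) - π) + m * (2 * π) := by
      push_cast
      field_simp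
      rw [hnm]
      ring
    rw [e1, e2, cos_add_nat_mul_two_pi, sin_add_nat_mul_two_pi, cos_add_pi, sin_add_pi, cos_sub_pi,
      sin_sub_pi]
    simp only [mul_neg, neg_smul, neg_add_rev]
    abel
  · intro t ht
    have hb1 := abs_cos_le_one ((t : ℝ) * (π / n))
    have hb2 := abs_cos_le_one ((t : ℝ) * (π * (n - 1) / n))
    have hle : (1 : ℝ) ≤ r * |cos ((t : ℝ) * (π / n))| + (1 - r) := by
      calc (1 : ℝ) = |r * cos ((t : ℝ) * (π / n)) + (1 - r) * cos ((t : ℝ) * (π * (n - 1) / n))| :=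
            ht.symm
        _ ≤ |r * cos ((t : ℝ) * (π / n))| + |(1 - r) * cos ((t : ℝ) * (π * (n - 1) / n))| :=
            abs_add_le _ _
        _ = r * |cos ((t : ℝ) * (π / n))| + (1 - r) * |cos ((t : ℝ) * (π * (n - 1) / n))| := by
            rw [abs_mul, abs_mul, abs_of_nonneg (by linarith : (0 : ℝ) ≤ r),
              abs_of_nonneg (by linarith : (0 : ℝ) ≤ 1 - r)]
        _ ≤ r * |cos ((t : ℝ) * (π / n))| + (1 - r) := by
            have := mul_le_mul_of_nonneg_left hb2 (by linarith : (0 : ℝ) ≤ 1 - r)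
            linarith
    have habs : |cos ((t : ℝ) * (π / n))| = 1 := by
      apply le_antisymm hb1
      by_contra hcon
      push Not at hcon
      nlinarith
    have hsin : sin ((t : ℝ) * (π / n)) = 0 := by
      have h3 := sin_sq_add_cos_sq ((t : ℝ) * (π / n))
      rw [← sq_abs (cos _), habs] at h3
      nlinarith
    obtain ⟨q, hq⟩ := sin_eq_zero_iff.1 hsin
    refine ⟨q, ?_⟩
    have h5 : (t : ℝ) = n * q := by
      field_simp at hq
      linarith
    exact_mod_cast h5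
  · show ⟪a, b⟫_ℝ = r * cos (((1 : ℤ) : ℝ) * (π / n)) + (1 - r) * cos (((1 : ℤ) : ℝ) *
      (π * (n - 1) / n))
    rw [← hcd, Int.cast_one, one_mul, one_mul, hβ, ← hCd]
    linarith

/-- for `n ≠ 4, 6` there is a rotation of order exactly `n` by an obtuse angle -/
lemma exists_obtuse (n : ℕ) (hn : 3 ≤ n) (h4 : n ≠ 4) (h6 : n ≠ 6) :
    ∃ j : ℕ, Nat.Coprime n j ∧ cos (2 * π * j / n) < 0 := by
  have hn0 : (0 : ℝ) < n := by exact_mod_cast (by omega : 0 < n)
  obtain ⟨j, hcop, hj1, hj2⟩ : ∃ j : ℕ, Nat.Coprime n j ∧ n < 4 * j ∧ 4 * j < 3 * n := by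
    rcases Nat.even_or_odd n with he | ho
    · obtain ⟨q, hq⟩ := he
      rcases Nat.even_or_odd q with he' | ho'
      · obtain ⟨m, hm⟩ := he'
        obtain ⟨m, rfl⟩ : ∃ m', m = m' + 1 := ⟨m - 1, by omega⟩
        refine ⟨2 * m + 1, ?_, by omega, by omega⟩
        rw [← Nat.isCoprime_iff_coprime]
        refine ⟨(m + 1 : ℤ), -(2 * m + 3 : ℤ), ?_⟩
        rw [hq, hm]
        push_cast
        ring
      · obtain ⟨m, hm⟩ := ho'
        obtain ⟨m, rfl⟩ : ∃ m', m = m' + 1 := ⟨m - 1, by omega⟩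
        refine ⟨2 * m + 1, ?_, by omega, by omega⟩
        rw [← Nat.isCoprime_iff_coprime]
        refine ⟨-((m + 1 : ℤ) * m), (2 * m + 1 : ℤ) + 2 * ((m + 1) * m), ?_⟩
        rw [hq, hm]
        push_cast
        ring
    · obtain ⟨m, hm⟩ := ho
      refine ⟨m, ?_, by omega, by omega⟩
      rw [← Nat.isCoprime_iff_coprime]
      refine ⟨1, -2, ?_⟩
      rw [hm]
      push_cast
      ring
  refine ⟨j, hcop, cos_neg_of_pi_div_two_lt_of_lt ?_ ?_⟩
  · have : (n : ℝ) < 4 * j := by exact_mod_cast hj1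
    rw [lt_div_iff₀ hn0]
    nlinarith [pi_pos]
  · have : 4 * (j : ℝ) < 3 * n := by exact_mod_cast hj2
    rw [div_lt_iff₀ hn0]
    nlinarith [pi_pos]

lemma exists_orthonormal_fin [FiniteDimensional ℝ V] (k : ℕ) (hk : k ≤ Module.finrank ℝ V) :
    ∃ e : Fin k → V, Orthonormal ℝ e := by
  refine ⟨fun i => stdOrthonormalBasis ℝ V (Fin.castLE hk i), ?_⟩
  exact (stdOrthonormalBasis ℝ V).orthonormal.comp _ (Fin.castLE_injective hk)

/-- **Existence.** -/
lemma exists_ngon [FiniteDimensional ℝ V] (h3 : 3 ≤ Module.finrank ℝ V) (n : ℕ) (hn : 3 ≤ n)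
    (h : 4 ≤ Module.finrank ℝ V ∨ (n ≠ 4 ∧ n ≠ 6)) (A B : Projectivization ℝ V) (hAB : A ≠ B) :
    AdjacentInNgon ellDist n A B := by
  obtain ⟨a, b, ha, hb, haA, hbB, h0, h1⟩ := exists_units A B hAB
  obtain ⟨e, he⟩ := exists_orthonormal_fin (V := V) 3 h3
  by_cases hex : n ≠ 4 ∧ n ≠ 6
  · obtain ⟨j, hj, hcos⟩ := exists_obtuse n hn hex.1 hex.2
    exact adjacent3 e he n j (by omega) hj A B a b ha hb haA hbB h1 (by linarith)
  · have hev : Even n := by
      have : n = 4 ∨ n = 6 := by omega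
      rcases this with rfl | rfl
      · exact ⟨2, rfl⟩
      · exact ⟨3, rfl⟩
    have hd : 4 ≤ Module.finrank ℝ V := by
      rcases h with h | h
      · exact h
      · exact absurd h hex
    obtain ⟨e', he'⟩ := exists_orthonormal_fin (V := V) 4 hd
    rcases le_or_gt ⟪a, b⟫_ℝ (cos (π / n)) with hle | hgt
    · exact adjacent4 e' he' n hn hev A B a b ha hb haA hbB h0 hle
    · refine adjacent3 e he n 1 (by omega) (Nat.coprime_one_right n) A B a b ha hb haA hbB h1 ?_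
      refine lt_trans ?_ hgt
      have hn3 : (3 : ℝ) ≤ n := by exact_mod_cast hn
      have hn0 : (0 : ℝ) < n := by linarith
      apply cos_lt_cos_of_nonneg_of_le_pi
      · positivity
      · rw [div_le_iff₀ hn0]
        push_cast
        nlinarith [pi_pos]
      · rw [div_lt_div_iff_of_pos_right hn0]
        push_cast
        linarith [pi_pos]

end Pool.Agent.KS6_55.Ell
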