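import Pool.Agent.KS6_55.Ell.Circle

/-!
# The elliptic spaces are of elliptic type; isometries
-/

set_option autoImplicit false

namespace Pool.Agent.KS6_55.Ell

open Real
open scoped InnerProductSpace

variable {V : Type} [NormedAddCommGroup V] [InnerProductSpace ℝ V]

lemma cs_ne_zero (u v : V) (hu : ‖u‖ = 1) (hv : ‖v‖ = 1) (huv : ⟪u, v⟫_ℝ = 0) (t : ℝ) :
    cos t • u + sin t • v ≠ 0 := by
  intro h
  have hvu : ⟪v, u⟫_ℝ = 0 := by rw [real_inner_comm]; exact huv
  have h1 : ⟪cos t • u + sin t • v, u⟫_ℝ = 0 := by rw [h, inner_zero_left]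
  have h2 : ⟪cos t • u + sin t • v, v⟫_ℝ = 0 := by rw [h, inner_zero_left]
  simp only [inner_add_left, real_inner_smul_left, huv, hvu, real_inner_self_eq_norm_sq, hu,
    hv] at h1 h2
  have := sin_sq_add_cos_sq t
  nlinarith

/-- every projective line of an elliptic space is isometric to a circle of length `π` -/
lemma ellDist_circle (W : Submodule ℝ V) (hW : Module.finrank ℝ W = 2) :
    ∃ f : AddCircle (2 * (π / 2)) → Projectivization ℝ V,
      (∀ s t, ellDist (f s) (f t) = dist s t) ∧ Set.range f = {A | A.submodule ≤ W} := by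
  haveI : FiniteDimensional ℝ W := FiniteDimensional.of_finrank_pos (by omega)
  let b : OrthonormalBasis (Fin 2) ℝ W := (stdOrthonormalBasis ℝ W).reindex (finCongr hW)
  have hb := orthonormal_iff_ite.1 b.orthonormal
  obtain ⟨u, hud⟩ : ∃ u : V, u = (b 0 : V) := ⟨_, rfl⟩
  obtain ⟨v, hvd⟩ : ∃ v : V, v = (b 1 : V) := ⟨_, rfl⟩
  have hu : ‖u‖ = 1 := by rw [hud]; exact (Submodule.coe_norm _).symm.trans (b.orthonormal.1 0)
  have hv : ‖v‖ = 1 := by rw [hvd]; exact (Submodule.coe_norm _).symm.trans (b.orthonormal.1 1)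
  have huv : ⟪u, v⟫_ℝ = 0 := by
    have := hb 0 1
    rw [Submodule.coe_inner] at this
    rw [hud, hvd, this]
    simp
  have huW : u ∈ W := by rw [hud]; exact (b 0).2
  have hvW : v ∈ W := by rw [hvd]; exact (b 1).2
  have hne := cs_ne_zero u v hu hv huv
  have hper : Function.Periodic (fun t : ℝ => Projectivization.mk ℝ _ (hne t)) (2 * (π / 2)) := by
    intro t
    show Projectivization.mk ℝ _ (hne (t + 2 * (π / 2))) = Projectivization.mk ℝ _ (hne t)
    rw [Projectivization.mk_eq_mk_iff']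
    refine ⟨-1, ?_⟩
    rw [show t + 2 * (π / 2) = t + π by ring, cos_add_pi, sin_add_pi]
    module
  refine ⟨hper.lift, ?_, ?_⟩
  · intro s t
    obtain ⟨s, rfl⟩ := QuotientAddGroup.mk_surjective s
    obtain ⟨t, rfl⟩ := QuotientAddGroup.mk_surjective t
    rw [Function.Periodic.lift_coe, Function.Periodic.lift_coe, ellDist_line u v hu hv huv,
      dist_eq_norm, ← norm_coe_pi]
    rfl
  · ext A
    constructor
    · rintro ⟨s, rfl⟩
      obtain ⟨s, rfl⟩ := QuotientAddGroup.mk_surjective s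
      rw [Function.Periodic.lift_coe]
      show (Projectivization.mk ℝ _ (hne s)).submodule ≤ W
      rw [Projectivization.submodule_mk, Submodule.span_singleton_le_iff_mem]
      exact W.add_mem (W.smul_mem _ huW) (W.smul_mem _ hvW)
    · intro hA
      have hA' : A.rep ∈ W := mem_of_submodule_le.1 hA
      have hsum := b.sum_repr ⟨A.rep, hA'⟩
      rw [Fin.sum_univ_two] at hsum
      obtain ⟨x, hx⟩ : ∃ x, x = b.repr ⟨A.rep, hA'⟩ 0 := ⟨_, rfl⟩
      obtain ⟨y, hy⟩ : ∃ y, y = b.repr ⟨A.rep, hA'⟩ 1 := ⟨_, rfl⟩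
      rw [← hx, ← hy] at hsum
      have hrep : x • u + y • v = A.rep := by
        have := congrArg (fun w : W => (w : V)) hsum
        simpa [hud, hvd] using this
      obtain ⟨z, hz⟩ : ∃ z : ℂ, z = ⟨x, y⟩ := ⟨_, rfl⟩
      have hz0 : ‖z‖ ≠ 0 := by
        intro h0
        have h1 : z = 0 := norm_eq_zero.1 h0
        have hx0 : x = 0 := by have := congrArg Complex.re h1; rw [hz] at this; simpa using this
        have hy0 : y = 0 := by have := congrArg Complex.im h1; rw [hz] at this; simpa using this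
        rw [hx0, hy0, zero_smul, zero_smul, add_zero] at hrep
        exact A.rep_nonzero hrep.symm
      have hc : ‖z‖ * cos z.arg = x := by rw [Complex.norm_mul_cos_arg, hz]
      have hs : ‖z‖ * sin z.arg = y := by rw [Complex.norm_mul_sin_arg, hz]
      refine ⟨(z.arg : AddCircle (2 * (π / 2))), ?_⟩
      refine (Function.Periodic.lift_coe hper z.arg).trans ?_
      refine Eq.trans ?_ A.mk_rep
      show Projectivization.mk ℝ _ (hne z.arg) = _
      rw [Projectivization.mk_eq_mk_iff']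
      refine ⟨‖z‖⁻¹, ?_⟩
      rw [← hrep, ← hc, ← hs, smul_add, smul_smul, smul_smul, ← mul_assoc, ← mul_assoc,
        inv_mul_cancel₀ hz0, one_mul, one_mul]

lemma ellDist_isEllipticType : IsEllipticType (ellDist (V := V)) (π / 2) where
  pos := by positivity
  eq_zero := ellDist_eq_zero
  symm := ellDist_symm
  triangle := ellDist_triangle
  topology := ellDist_topology
  line := ellDist_circle
  strict := ellDist_strict

/-! ### Elliptic type excludes Euclidean and hyperbolic spaces -/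

lemma exists_ne (h2 : 2 ≤ Module.finrank ℝ V) : ∃ A B : Projectivization ℝ V, A ≠ B := by
  haveI : FiniteDimensional ℝ V := FiniteDimensional.of_finrank_pos (by omega)
  obtain ⟨e, he⟩ := exists_orthonormal_fin (V := V) 2 h2
  have h0 : e 0 ≠ 0 := he.ne_zero 0
  have h1 : e 1 ≠ 0 := he.ne_zero 1
  refine ⟨Projectivization.mk ℝ (e 0) h0, Projectivization.mk ℝ (e 1) h1, ?_⟩
  intro h
  rw [Projectivization.mk_eq_mk_iff'] at h
  obtain ⟨a, ha⟩ := h
  have h3 : ⟪e 1, e 0⟫_ℝ = 0 := he.2 (by decide)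
  rw [← ha, real_inner_smul_right, real_inner_self_eq_norm_sq, he.1 1, one_pow, mul_one] at h3
  rw [h3, zero_smul] at ha
  exact h0 ha.symm

lemma exists_max {d : Projectivization ℝ V → Projectivization ℝ V → ℝ} {δ : ℝ}
    (hd : IsEllipticType d δ) (h2 : 2 ≤ Module.finrank ℝ V) : ∃ A B, d A B = δ := by
  obtain ⟨A, B, hAB⟩ := exists_ne h2
  obtain ⟨f, hf, -⟩ := hd.line _ (finrank_span_pair hAB)
  obtain ⟨t, ht⟩ := exists_antipodal hd.pos (0 : AddCircle (2 * δ))
  exact ⟨f 0, f t, by rw [hf, ht]⟩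

lemma not_isEuclidean {d : Projectivization ℝ V → Projectivization ℝ V → ℝ} {δ : ℝ}
    (hd : IsEllipticType d δ) (h2 : 2 ≤ Module.finrank ℝ V) : ¬ IsEuclidean d := by
  rintro ⟨m, f, hf⟩
  have hδ := hd.pos
  rcases Nat.eq_zero_or_pos m with rfl | hm
  · obtain ⟨A, B, hAB⟩ := exists_max hd h2
    rw [hf, Subsingleton.elim (f A) (f B), dist_self] at hAB
    linarith
  · have h1 := hd.le (f.symm 0) (f.symm (EuclideanSpace.single ⟨0, hm⟩ (2 * δ)))
    rw [hf, Equiv.apply_symm_apply, Equiv.apply_symm_apply, dist_comm, dist_eq_norm, sub_zero,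
      PiLp.norm_single, Real.norm_eq_abs, abs_of_pos (by positivity)] at h1
    linarith

lemma not_isHyperbolic {d : Projectivization ℝ V → Projectivization ℝ V → ℝ} {δ : ℝ}
    (hd : IsEllipticType d δ) (h2 : 2 ≤ Module.finrank ℝ V) : ¬ IsHyperbolic d := by
  rintro ⟨m, k, f, hk, hf⟩
  have hδ := hd.pos
  rcases Nat.eq_zero_or_pos m with rfl | hm
  · obtain ⟨A, B, hAB⟩ := exists_max hd h2
    rw [hf, Subsingleton.elim (f A) 0, Subsingleton.elim (f B) 0] at hAB
    unfold hypDist at hAB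
    rw [norm_zero, inner_zero_left] at hAB
    norm_num at hAB
    linarith
  · have h1 := hd.le (f.symm 0) (f.symm (EuclideanSpace.single ⟨0, hm⟩ (sinh (2 * δ * √k))))
    have hs : 0 < √k := Real.sqrt_pos.2 hk
    rw [hf, Equiv.apply_symm_apply, Equiv.apply_symm_apply] at h1
    unfold hypDist at h1
    rw [PiLp.norm_single, Real.norm_eq_abs, sq_abs, norm_zero, inner_zero_left,
      add_comm 1 (sinh _ ^ 2), ← cosh_sq, sqrt_sq (cosh_pos _).le, sub_zero] at h1
    norm_num at h1
    rw [arcosh_cosh (by positivity), mul_div_assoc, div_self hs.ne', mul_one] at h1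
    linarith

end Pool.Agent.KS6_55.Ell
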