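import Pool.Agent.KS6_55.Ell.Exist

/-!
# The elliptic plane: no regular quadrangles and hexagons with orthogonal adjacent vertices
-/

set_option autoImplicit false

namespace Pool.Agent.KS6_55.Ell

open Real
open scoped InnerProductSpace

variable {V : Type} [NormedAddCommGroup V] [InnerProductSpace ℝ V]

lemma ellDist_unit (a b : V) (ha : ‖a‖ = 1) (hb : ‖b‖ = 1) (ha0 : a ≠ 0) (hb0 : b ≠ 0) :
    ellDist (Projectivization.mk ℝ a ha0) (Projectivization.mk ℝ b hb0) = arccos |⟪a, b⟫_ℝ| := by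
  rw [ellDist_mk, ha, hb]
  norm_num

lemma abs_inner_le (a b : V) (ha : ‖a‖ = 1) (hb : ‖b‖ = 1) : |⟪a, b⟫_ℝ| ≤ 1 := by
  have := abs_real_inner_le_norm a b
  rwa [ha, hb, mul_one] at this

/-- unit representatives of the points of a sequence -/
lemma exists_reps {ι : Type} (P : ι → Projectivization ℝ V) :
    ∃ p : ι → V, (∀ i, ‖p i‖ = 1) ∧
      (∀ i j, ellDist (P i) (P j) = arccos |⟪p i, p j⟫_ℝ|) := by
  have hunit : ∀ A : Projectivization ℝ V, ∃ a : V, ‖a‖ = 1 ∧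
      ∃ h : a ≠ 0, Projectivization.mk ℝ a h = A := by
    intro A
    have hA := A.rep_nonzero
    have hAn : ‖A.rep‖ ≠ 0 := norm_ne_zero_iff.2 hA
    refine ⟨(‖A.rep‖⁻¹ : ℝ) • A.rep, ?_, smul_ne_zero (inv_ne_zero hAn) hA, ?_⟩
    · rw [norm_smul, norm_inv, norm_norm, inv_mul_cancel₀ hAn]
    · refine Eq.trans ?_ A.mk_rep
      rw [Projectivization.mk_eq_mk_iff']
      exact ⟨_, rfl⟩
  choose p hp hp0 hpP using fun i => hunit (P i)
  refine ⟨p, hp, fun i j => ?_⟩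
  rw [← hpP i, ← hpP j]
  exact ellDist_unit _ _ (hp i) (hp j) _ _

lemma sq_eq_of_dist {a b c d : V} (ha : ‖a‖ = 1) (hb : ‖b‖ = 1) (hc : ‖c‖ = 1) (hd : ‖d‖ = 1)
    (h : arccos |⟪a, b⟫_ℝ| = arccos |⟪c, d⟫_ℝ|) : ⟪a, b⟫_ℝ ^ 2 = ⟪c, d⟫_ℝ ^ 2 := by
  have h1 := arccos_injOn ⟨by linarith [abs_nonneg ⟪a, b⟫_ℝ], abs_inner_le a b ha hb⟩
    ⟨by linarith [abs_nonneg ⟪c, d⟫_ℝ], abs_inner_le c d hc hd⟩ h
  rw [← sq_abs, h1, sq_abs]

lemma exists_rel [FiniteDimensional ℝ V] (h3 : Module.finrank ℝ V = 3) (v : Fin 4 → V) :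
    ∃ g : Fin 4 → ℝ, g 0 • v 0 + g 1 • v 1 + g 2 • v 2 + g 3 • v 3 = 0 ∧ ∃ i, g i ≠ 0 := by
  have h : ¬ LinearIndependent ℝ v := by
    intro h
    have := h.fintype_card_le_finrank
    rw [h3, Fintype.card_fin] at this
    omega
  obtain ⟨g, hg, hi⟩ := Fintype.not_linearIndependent_iff.1 h
  refine ⟨g, ?_, hi⟩
  rw [← hg, Fin.sum_univ_four]

/-- the four equations obtained by taking inner products in a linear relation -/
lemma rel_inner {a b c d : V} {x y z t : ℝ} (h : x • a + y • b + z • c + t • d = 0) (u : V) :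
    x * ⟪a, u⟫_ℝ + y * ⟪b, u⟫_ℝ + z * ⟪c, u⟫_ℝ + t * ⟪d, u⟫_ℝ = 0 := by
  have := congrArg (fun v => ⟪v, u⟫_ℝ) h
  simpa only [inner_add_left, real_inner_smul_left, inner_zero_left] using this

/-- four vectors of a space of dimension three, in which every one is orthogonal to two
others: Gram determinant -/
lemma gram_chain [FiniteDimensional ℝ V] (h3 : Module.finrank ℝ V = 3) (v u s t : V)
    (hv : ‖v‖ = 1) (hu : ‖u‖ = 1) (hs : ‖s‖ = 1) (ht : ‖t‖ = 1)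
    (h1 : ⟪v, s⟫_ℝ = 0) (h2 : ⟪v, t⟫_ℝ = 0) (h4 : ⟪u, t⟫_ℝ = 0) :
    (1 - ⟪v, u⟫_ℝ ^ 2) * (1 - ⟪s, t⟫_ℝ ^ 2) = ⟪u, s⟫_ℝ ^ 2 := by
  obtain ⟨g, hg, hi⟩ := exists_rel h3 ![v, u, s, t]
  simp only [Matrix.cons_val_zero, Matrix.cons_val_one, Matrix.cons_val] at hg
  have e1 := rel_inner hg v
  have e2 := rel_inner hg u
  have e3 := rel_inner hg s
  have e4 := rel_inner hg t
  have n1 : ⟪v, v⟫_ℝ = 1 := by rw [real_inner_self_eq_norm_sq, hv]; norm_num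
  have n2 : ⟪u, u⟫_ℝ = 1 := by rw [real_inner_self_eq_norm_sq, hu]; norm_num
  have n3 : ⟪s, s⟫_ℝ = 1 := by rw [real_inner_self_eq_norm_sq, hs]; norm_num
  have n4 : ⟪t, t⟫_ℝ = 1 := by rw [real_inner_self_eq_norm_sq, ht]; norm_num
  rw [real_inner_comm v u, real_inner_comm v s, real_inner_comm v t, h1, h2, n1] at e1
  rw [real_inner_comm u s, real_inner_comm u t, h4, n2] at e2
  rw [real_inner_comm s t, h1, n3] at e3
  rw [h2, h4, n4] at e4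
  generalize ⟪v, u⟫_ℝ = a at *
  generalize ⟪u, s⟫_ℝ = b at *
  generalize ⟪s, t⟫_ℝ = c at *
  by_contra hne
  have hne' : (1 - a ^ 2) * (1 - c ^ 2) - b ^ 2 ≠ 0 := sub_ne_zero.2 hne
  have hy : g 1 = 0 := by
    have : ((1 - a ^ 2) * (1 - c ^ 2) - b ^ 2) * g 1 = 0 := by
      linear_combination (1 - c ^ 2) * e2 - a * (1 - c ^ 2) * e1 - b * e3 + b * c * e4
    exact (mul_eq_zero.1 this).resolve_left hne'
  have hz : g 2 = 0 := by
    have : ((1 - a ^ 2) * (1 - c ^ 2) - b ^ 2) * g 2 = 0 := by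
      linear_combination (1 - a ^ 2) * e3 - c * (1 - a ^ 2) * e4 - b * e2 + b * a * e1
    exact (mul_eq_zero.1 this).resolve_left hne'
  have hx : g 0 = 0 := by rw [hy] at e1; linarith
  have ht' : g 3 = 0 := by rw [hz] at e4; linarith
  obtain ⟨i, hi⟩ := hi
  fin_cases i
  · exact hi hx
  · exact hi hy
  · exact hi hz
  · exact hi ht'

/-- Gram determinant of four vectors of a space of dimension three, the last of which is
orthogonal to two of the others -/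
lemma gram_three [FiniteDimensional ℝ V] (h3 : Module.finrank ℝ V = 3) (u v w t : V)
    (hu : ‖u‖ = 1) (hv : ‖v‖ = 1) (hw : ‖w‖ = 1) (ht : ‖t‖ = 1)
    (h1 : ⟪u, t⟫_ℝ = 0) (h2 : ⟪v, t⟫_ℝ = 0) (huv : ⟪u, v⟫_ℝ ^ 2 ≠ 1) :
    (1 - ⟪w, t⟫_ℝ ^ 2) * (1 - ⟪u, v⟫_ℝ ^ 2) - ⟪v, w⟫_ℝ ^ 2 - ⟪u, w⟫_ℝ ^ 2 +
      2 * ⟪u, v⟫_ℝ * ⟪v, w⟫_ℝ * ⟪u, w⟫_ℝ = 0 := by
  obtain ⟨g, hg, hi⟩ := exists_rel h3 ![u, v, w, t]
  simp only [Matrix.cons_val_zero, Matrix.cons_val_one, Matrix.cons_val] at hg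
  have e1 := rel_inner hg u
  have e2 := rel_inner hg v
  have e3 := rel_inner hg w
  have e4 := rel_inner hg t
  have n1 : ⟪u, u⟫_ℝ = 1 := by rw [real_inner_self_eq_norm_sq, hu]; norm_num
  have n2 : ⟪v, v⟫_ℝ = 1 := by rw [real_inner_self_eq_norm_sq, hv]; norm_num
  have n3 : ⟪w, w⟫_ℝ = 1 := by rw [real_inner_self_eq_norm_sq, hw]; norm_num
  have n4 : ⟪t, t⟫_ℝ = 1 := by rw [real_inner_self_eq_norm_sq, ht]; norm_num
  rw [real_inner_comm u v, real_inner_comm u w, real_inner_comm u t, h1, n1] at e1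
  rw [real_inner_comm v w, real_inner_comm v t, h2, n2] at e2
  rw [real_inner_comm w t, n3] at e3
  rw [h1, h2, n4] at e4
  generalize ⟪u, v⟫_ℝ = a at *
  generalize ⟪u, w⟫_ℝ = e at *
  generalize ⟪v, w⟫_ℝ = f at *
  generalize ⟪w, t⟫_ℝ = k at *
  have ha : 1 - a ^ 2 ≠ 0 := fun h => huv (by linarith)
  have hz : g 2 ≠ 0 := by
    intro hz
    rw [hz] at e1 e2 e4
    have hy : g 1 = 0 := by
      have : (1 - a ^ 2) * g 1 = 0 := by linear_combination e2 - a * e1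
      exact (mul_eq_zero.1 this).resolve_left ha
    have hx : g 0 = 0 := by rw [hy] at e1; linarith
    have ht' : g 3 = 0 := by linarith
    obtain ⟨i, hi⟩ := hi
    fin_cases i
    · exact hi hx
    · exact hi hy
    · exact hi hz
    · exact hi ht'
  have key : ((1 - k ^ 2) * (1 - a ^ 2) - f ^ 2 - e ^ 2 + 2 * a * f * e) * g 2 = 0 := by
    linear_combination (1 - a ^ 2) * e3 - k * (1 - a ^ 2) * e4 + (a * f - e) * e1 +
      (a * e - f) * e2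
  exact (mul_eq_zero.1 key).resolve_right hz

/-- two orthogonal lines of a 3-dimensional space are not adjacent vertices of a regular
quadrangle -/
lemma no_quadrangle [FiniteDimensional ℝ V] (h3 : Module.finrank ℝ V = 3)
    (A B : Projectivization ℝ V) (hAB : ellDist A B = π / 2) : ¬ AdjacentInNgon ellDist 4 A B := by
  rintro ⟨P, ⟨hinj, hreg⟩, rfl, rfl⟩
  obtain ⟨p, hp, hd⟩ := exists_reps P
  have orth : ∀ i : ZMod 4, ⟪p i, p (i + 1)⟫_ℝ = 0 := by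
    intro i
    have h := hreg 0 1 i
    rw [hAB, zero_add, add_comm, hd] at h
    have h2 := (arccos_eq_pi_div_two).1 h.symm
    exact abs_eq_zero.1 h2
  have hne : ∀ i j : ZMod 4, i ≠ j → ⟪p i, p j⟫_ℝ ^ 2 ≠ 1 := by
    intro i j hij h
    apply hij
    apply hinj
    rw [← ellDist_eq_zero, hd, arccos_eq_zero, ← sqrt_sq_eq_abs, h, sqrt_one]
  have key := gram_chain h3 (p 2) (p 0) (p 1) (p 3) (hp _) (hp _) (hp _) (hp _)
    (by rw [real_inner_comm]; exact orth 1) (orth 2) (by rw [real_inner_comm]; exact orth 3)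
  have o0 : ⟪p 0, p 1⟫_ℝ = 0 := orth 0
  rw [o0] at key
  have h1 := hne 2 0 (by decide)
  have h2 := hne 1 3 (by decide)
  rcases mul_eq_zero.1 (key.trans (by norm_num)) with h | h
  · exact h1 (by linarith)
  · exact h2 (by linarith)

/-- two orthogonal lines of a 3-dimensional space are not adjacent vertices of a regular
hexagon -/
lemma no_hexagon [FiniteDimensional ℝ V] (h3 : Module.finrank ℝ V = 3)
    (A B : Projectivization ℝ V) (hAB : ellDist A B = π / 2) : ¬ AdjacentInNgon ellDist 6 A B := by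
  rintro ⟨P, ⟨hinj, hreg⟩, rfl, rfl⟩
  obtain ⟨p, hp, hd⟩ := exists_reps P
  have orth : ∀ i : ZMod 6, ⟪p i, p (i + 1)⟫_ℝ = 0 := by
    intro i
    have h := hreg 0 1 i
    rw [hAB, zero_add, add_comm, hd] at h
    have h2 := (arccos_eq_pi_div_two).1 h.symm
    exact abs_eq_zero.1 h2
  have hne : ∀ i j : ZMod 6, i ≠ j → ⟪p i, p j⟫_ℝ ^ 2 ≠ 1 := by
    intro i j hij h
    apply hij
    apply hinj
    rw [← ellDist_eq_zero, hd, arccos_eq_zero, ← sqrt_sq_eq_abs, h, sqrt_one]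
  have hsq : ∀ i j h : ZMod 6, ⟪p i, p j⟫_ℝ ^ 2 = ⟪p (i + h), p (j + h)⟫_ℝ ^ 2 := by
    intro i j h
    have e := hreg i j h
    rw [hd, hd] at e
    exact sq_eq_of_dist (hp _) (hp _) (hp _) (hp _) e
  -- `x²`: the squared inner product at distance two, `y²`: at distance three
  have k1 := gram_chain h3 (p 2) (p 0) (p 3) (p 1) (hp _) (hp _) (hp _) (hp _)
    (orth 2) (by rw [real_inner_comm]; exact orth 1) (orth 0)
  have k2 := gram_three h3 (p 0) (p 2) (p 4) (p 1) (hp _) (hp _) (hp _) (hp _)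
    (orth 0) (by rw [real_inner_comm]; exact orth 1) (hne 0 2 (by decide))
  have s1 : ⟪p 2, p 0⟫_ℝ ^ 2 = ⟪p 0, p 2⟫_ℝ ^ 2 := by rw [real_inner_comm]
  have s2 : ⟪p 3, p 1⟫_ℝ ^ 2 = ⟪p 0, p 2⟫_ℝ ^ 2 := by
    rw [real_inner_comm]; exact (hsq 0 2 1).symm
  have s3 : ⟪p 2, p 4⟫_ℝ ^ 2 = ⟪p 0, p 2⟫_ℝ ^ 2 := (hsq 0 2 2).symm
  have s4 : ⟪p 0, p 4⟫_ℝ ^ 2 = ⟪p 0, p 2⟫_ℝ ^ 2 := by
    have := hsq 0 4 2
    rw [this, real_inner_comm]
    rfl
  have s5 : ⟪p 4, p 1⟫_ℝ ^ 2 = ⟪p 0, p 3⟫_ℝ ^ 2 := by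
    rw [real_inner_comm]; exact (hsq 0 3 1).symm
  have hx1 := hne 0 2 (by decide)
  have hy1 := hne 0 3 (by decide)
  rw [s1, s2] at k1
  rw [s3, s4, s5] at k2
  obtain ⟨X, hX⟩ : ∃ X, X = ⟪p 0, p 2⟫_ℝ ^ 2 := ⟨_, rfl⟩
  obtain ⟨Y, hY⟩ : ∃ Y, Y = ⟪p 0, p 3⟫_ℝ ^ 2 := ⟨_, rfl⟩
  have hprod : (⟪p 0, p 2⟫_ℝ * ⟪p 2, p 4⟫_ℝ * ⟪p 0, p 4⟫_ℝ) ^ 2 = X ^ 3 := by
    rw [mul_pow, mul_pow, s3, s4, ← hX]; ring
  obtain ⟨Z, hZ⟩ : ∃ Z, Z = ⟪p 0, p 2⟫_ℝ * ⟪p 2, p 4⟫_ℝ * ⟪p 0, p 4⟫_ℝ := ⟨_, rfl⟩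
  have k2' : (1 - Y) * (1 - X) - X - X + 2 * Z = 0 := by
    rw [hX, hY, hZ]; linear_combination k2
  rw [← hZ] at hprod
  rw [← hX, ← hY] at k1
  rw [← hX] at hx1
  rw [← hY] at hy1
  have hX0 : 0 ≤ X := by rw [hX]; positivity
  have hX1 : X ≤ 1 := by
    rw [hX, ← sq_abs]
    have := abs_inner_le (p 0) (p 2) (hp _) (hp _)
    nlinarith [abs_nonneg ⟪p 0, p 2⟫_ℝ]
  have hXlt : X < 1 := lt_of_le_of_ne hX1 hx1
  -- `Y = (1 - X)²` and `4 X³ = (3 X² - X³)²`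
  have hpoly : X ^ 3 * (1 - X) ^ 2 * (4 - X) = 0 := by
    have hZ2 : 2 * Z = X ^ 2 * (3 - X) := by
      linear_combination k2' + (1 - X) * k1 * (-1)
    have h4 : 4 * Z ^ 2 = X ^ 4 * (3 - X) ^ 2 := by
      have : (2 * Z) ^ 2 = (X ^ 2 * (3 - X)) ^ 2 := by rw [hZ2]
      linear_combination this
    linear_combination h4 - 4 * hprod
  have hXz : X = 0 := by
    rcases mul_eq_zero.1 hpoly with h | h
    · rcases mul_eq_zero.1 h with h | h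
      · exact pow_eq_zero_iff (by norm_num) |>.1 h
      · exact absurd (pow_eq_zero_iff (by norm_num) |>.1 h) (by linarith)
    · linarith
  apply hy1
  rw [← k1, hXz]
  norm_num

end Pool.Agent.KS6_55.Ell
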