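import Pool.Agent.KS6_55.Ell.Basic

/-!
# Elliptic spaces: regular polygons
-/

set_option autoImplicit false

namespace Pool.Agent.KS6_55.Ell

open Real
open scoped InnerProductSpace

/-- A regular `n`-gon in a set with a distance function `d`: `n` distinct points (numbered by
`ℤ/n`) such that the distance of two of them depends only on the difference of their numbers. -/
def IsRegularPolygon {X : Type} (d : X → X → ℝ) (n : ℕ) (P : ZMod n → X) : Prop :=
  Function.Injective P ∧ ∀ i j h : ZMod n, d (P i) (P j) = d (P (i + h)) (P (j + h))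

/-- `A` and `B` are adjacent vertices of a regular `n`-gon. -/
def AdjacentInNgon {X : Type} (d : X → X → ℝ) (n : ℕ) (A B : X) : Prop :=
  ∃ P : ZMod n → X, IsRegularPolygon d n P ∧ P 0 = A ∧ P 1 = B

lemma adjacent_of_int {X : Type} (d : X → X → ℝ) (n : ℕ) (hn : n ≠ 0) (Q : ℤ → X)
    (hper : ∀ k, Q (k + n) = Q k) (hinj : ∀ i j, Q i = Q j → (n : ℤ) ∣ i - j)
    (hd : ∀ i j h, d (Q i) (Q j) = d (Q (i + h)) (Q (j + h))) :
    AdjacentInNgon d n (Q 0) (Q 1) := by
  haveI : NeZero n := ⟨hn⟩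
  have hmul : ∀ (m : ℕ) (k : ℤ), Q (k + m * n) = Q k := by
    intro m
    induction m with
    | zero => intro k; simp
    | succ m ih =>
      intro k
      have e : k + ((m + 1 : ℕ) : ℤ) * n = (k + m * n) + n := by push_cast; ring
      rw [e, hper, ih]
  have hmul' : ∀ (m k : ℤ), Q (k + m * n) = Q k := by
    intro m k
    rcases Int.eq_nat_or_neg m with ⟨a, rfl | rfl⟩
    · exact hmul a k
    · have := hmul a (k + -(a : ℤ) * n)
      rw [show k + -(a : ℤ) * n + a * n = k by ring] at this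
      exact this.symm
  have hcast : ∀ a b : ℤ, (a : ZMod n) = (b : ZMod n) → Q a = Q b := by
    intro a b hab
    obtain ⟨m, hm⟩ := (ZMod.intCast_eq_intCast_iff_dvd_sub a b n).1 hab
    have e : b = a + m * n := by linarith
    rw [e, hmul']
  have hval : ∀ x : ZMod n, ((x.val : ℤ) : ZMod n) = x := by
    intro x
    rw [Int.cast_natCast, ZMod.natCast_zmod_val]
  refine ⟨fun x => Q x.val, ⟨?_, ?_⟩, ?_, ?_⟩
  · intro x y hxy
    have h := hinj _ _ hxy
    have h2 := (ZMod.intCast_eq_intCast_iff_dvd_sub (y.val : ℤ) (x.val : ℤ) n).2 h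
    rw [hval, hval] at h2
    exact h2.symm
  · intro i j h
    have e1 : Q ((i + h).val : ℤ) = Q ((i.val : ℤ) + (h.val : ℤ)) := by
      apply hcast
      rw [Int.cast_add, hval, hval, hval]
    have e2 : Q ((j + h).val : ℤ) = Q ((j.val : ℤ) + (h.val : ℤ)) := by
      apply hcast
      rw [Int.cast_add, hval, hval, hval]
    show d (Q i.val) (Q j.val) = d (Q (i + h).val) (Q (j + h).val)
    rw [e1, e2]
    exact hd _ _ _
  · show Q ((0 : ZMod n).val : ℤ) = Q 0
    apply hcast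
    rw [hval, Int.cast_zero]
  · show Q ((1 : ZMod n).val : ℤ) = Q 1
    apply hcast
    rw [hval, Int.cast_one]

variable {V : Type} [NormedAddCommGroup V] [InnerProductSpace ℝ V]

lemma ellDist_self (A : Projectivization ℝ V) : ellDist A A = 0 := (ellDist_eq_zero A A).2 rfl

/-- unit vectors representing two different points, with nonnegative inner product -/
lemma exists_units (A B : Projectivization ℝ V) (hAB : A ≠ B) :
    ∃ a b : V, ‖a‖ = 1 ∧ ‖b‖ = 1 ∧ (∃ h : a ≠ 0, Projectivization.mk ℝ a h = A) ∧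
      (∃ h : b ≠ 0, Projectivization.mk ℝ b h = B) ∧ 0 ≤ ⟪a, b⟫_ℝ ∧ ⟪a, b⟫_ℝ < 1 := by
  have hunit : ∀ A : Projectivization ℝ V, ∃ a : V, ‖a‖ = 1 ∧
      ∃ h : a ≠ 0, Projectivization.mk ℝ a h = A := by
    intro A
    have hA := A.rep_nonzero
    have hAn : ‖A.rep‖ ≠ 0 := norm_ne_zero_iff.2 hA
    refine ⟨(‖A.rep‖⁻¹ : ℝ) • A.rep, ?_, smul_ne_zero (inv_ne_zero hAn) hA, ?_⟩
    · rw [norm_smul, norm_inv, norm_norm, inv_mul_cancel₀ hAn]
    · refine Eq.trans ?_ A.mk_rep
      rw [Projectivization.mk_eq_mk_iff']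
      exact ⟨_, rfl⟩
  obtain ⟨a, ha, ha0, haA⟩ := hunit A
  obtain ⟨b0, hb0, hb00, hbB⟩ := hunit B
  obtain ⟨b, hb, hbn, hbB', hc0⟩ : ∃ b : V, ‖b‖ = 1 ∧ ∃ h : b ≠ 0,
      Projectivization.mk ℝ b h = B ∧ 0 ≤ ⟪a, b⟫_ℝ := by
    by_cases h : 0 ≤ ⟪a, b0⟫_ℝ
    · exact ⟨b0, hb0, hb00, hbB, h⟩
    · refine ⟨-b0, by rw [norm_neg, hb0], neg_ne_zero.2 hb00, ?_, ?_⟩
      · rw [← hbB, Projectivization.mk_eq_mk_iff']
        exact ⟨-1, by simp⟩
      · rw [inner_neg_right]; push Not at h; linarith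
  refine ⟨a, b, ha, hb, ⟨ha0, haA⟩, ⟨hbn, hbB'⟩, hc0, ?_⟩
  have h1 : ⟪a, b⟫_ℝ ≤ 1 := by
    have := real_inner_le_norm a b
    rwa [ha, hb, mul_one] at this
  rcases lt_or_eq_of_le h1 with h2 | h2
  · exact h2
  · exfalso
    apply hAB
    have h3 : a = b := (inner_eq_one_iff_of_norm_eq_one ha hb).1 h2
    rw [← haA, ← hbB']
    congr 1

/-- a cyclic sequence of unit vectors whose inner products depend on the differences of the
indices gives regular polygons -/
lemma adjacent_of_model (n : ℕ) (hn : n ≠ 0) (w : ℤ → V) (G : ℤ → ℝ)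
    (hw : ∀ i j, ⟪w i, w j⟫_ℝ = G (i - j)) (h0 : G 0 = 1) (hper : ∀ k, ∃ t : ℝ, t • w k = w (k + n))
    (hnd : ∀ t, |G t| = 1 → (n : ℤ) ∣ t) (A B : Projectivization ℝ V) (a b : V) (ha : ‖a‖ = 1)
    (hb : ‖b‖ = 1) (haA : ∃ h : a ≠ 0, Projectivization.mk ℝ a h = A)
    (hbB : ∃ h : b ≠ 0, Projectivization.mk ℝ b h = B) (hG : ⟪a, b⟫_ℝ = G 1) :
    AdjacentInNgon ellDist n A B := by
  have hwn : ∀ k, ‖w k‖ = 1 := by
    intro k
    have h := hw k k
    rw [real_inner_self_eq_norm_sq, sub_self, h0] at h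
    nlinarith [norm_nonneg (w k)]
  obtain ⟨U, hU0, hU1⟩ := exists_iso a b (w 0) (w 1) ha hb (hwn 0) (hwn 1) (by
    rw [real_inner_comm, hw, hG]
    norm_num)
  have hUn : ∀ k, ‖U (w k)‖ = 1 := fun k => by rw [U.norm_map, hwn]
  have hne : ∀ k, U (w k) ≠ 0 := fun k h => by
    have := hUn k
    rw [h, norm_zero] at this
    exact zero_ne_one this
  have key := adjacent_of_int (ellDist (V := V)) n hn (fun k => Projectivization.mk ℝ _ (hne k))
    ?_ ?_ ?_
  · have e0 : Projectivization.mk ℝ _ (hne 0) = A := by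
      obtain ⟨h, hA⟩ := haA
      refine Eq.trans ?_ hA
      rw [Projectivization.mk_eq_mk_iff']
      exact ⟨1, by rw [one_smul, hU0]⟩
    have e1 : Projectivization.mk ℝ _ (hne 1) = B := by
      obtain ⟨h, hB⟩ := hbB
      refine Eq.trans ?_ hB
      rw [Projectivization.mk_eq_mk_iff']
      exact ⟨1, by rw [one_smul, hU1]⟩
    rw [e0, e1] at key
    exact key
  · intro k
    rw [Projectivization.mk_eq_mk_iff']
    obtain ⟨t, ht⟩ := hper k
    exact ⟨t, by rw [← ht, map_smul]⟩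
  · intro i j hij
    rw [Projectivization.mk_eq_mk_iff'] at hij
    obtain ⟨t, ht⟩ := hij
    rw [← map_smul] at ht
    have ht2 := U.injective ht
    apply hnd
    rw [← hw, ← ht2, real_inner_smul_left, real_inner_self_eq_norm_sq, hwn]
    have h3 := congrArg norm ht2
    rw [norm_smul, hwn, hwn, mul_one, Real.norm_eq_abs] at h3
    rw [one_pow, mul_one, h3]
  · intro i j h
    rw [ellDist_mk, ellDist_mk, U.inner_map_map, U.inner_map_map, hUn, hUn, hUn, hUn, hw, hw,
      show i + h - (j + h) = i - j by ring]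

/-! ### The models -/

/-- an orbit on a small circle of the sphere of a 3-dimensional space -/
noncomputable def w3 (e : Fin 3 → V) (r β : ℝ) (k : ℤ) : V :=
  √r • e 0 + (√(1 - r) * cos (k * β)) • e 1 + (√(1 - r) * sin (k * β)) • e 2

lemma inner_w3 (e : Fin 3 → V) (he : Orthonormal ℝ e) (r β : ℝ) (h0 : 0 ≤ r) (h1 : r ≤ 1)
    (i j : ℤ) : ⟪w3 e r β i, w3 e r β j⟫_ℝ = r + (1 - r) * cos (((i - j : ℤ) : ℝ) * β) := by
  have h := orthonormal_iff_ite.1 he
  have r1 := Real.mul_self_sqrt h0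
  have r2 := Real.mul_self_sqrt (sub_nonneg.2 h1)
  unfold w3
  simp only [inner_add_left, inner_add_right, real_inner_smul_left, real_inner_smul_right, h]
  simp only [Fin.isValue, if_true, Fin.reduceEq, if_false]
  push_cast
  rw [sub_mul (i : ℝ) j β, cos_sub]
  linear_combination r1 + (cos (i * β) * cos (j * β) + sin (i * β) * sin (j * β)) * r2

/-- an orbit of a double rotation of a 4-dimensional space -/
noncomputable def w4 (e : Fin 4 → V) (r α β : ℝ) (k : ℤ) : V :=
  (√r * cos (k * α)) • e 0 + (√r * sin (k * α)) • e 1 + (√(1 - r) * cos (k * β)) • e 2 +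
    (√(1 - r) * sin (k * β)) • e 3

lemma inner_w4 (e : Fin 4 → V) (he : Orthonormal ℝ e) (r α β : ℝ) (h0 : 0 ≤ r) (h1 : r ≤ 1)
    (i j : ℤ) : ⟪w4 e r α β i, w4 e r α β j⟫_ℝ =
      r * cos (((i - j : ℤ) : ℝ) * α) + (1 - r) * cos (((i - j : ℤ) : ℝ) * β) := by
  have h := orthonormal_iff_ite.1 he
  have r1 := Real.mul_self_sqrt h0
  have r2 := Real.mul_self_sqrt (sub_nonneg.2 h1)
  unfold w4
  simp only [inner_add_left, inner_add_right, real_inner_smul_left, real_inner_smul_right, h]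
  simp only [Fin.isValue, if_true, Fin.reduceEq, if_false]
  push_cast
  rw [sub_mul (i : ℝ) j α, sub_mul (i : ℝ) j β, cos_sub, cos_sub]
  linear_combination (cos (i * α) * cos (j * α) + sin (i * α) * sin (j * α)) * r1 +
    (cos (i * β) * cos (j * β) + sin (i * β) * sin (j * β)) * r2

end Pool.Agent.KS6_55.Ell
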